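import Pool.Agent.H56.EV.Fin

/-!
# MP_7bce3d_co: even degrees and symmetric rows

Definitions (`Pool/Agent/H61/Stein/`, `Pool/Agent/H56/EV/Defs.lean`): `entry x i j` are the entries
above the diagonal of the Steinhaus matrix with first row `x`; `ext s i` is the letter `x_i` of the
string `s` (`n = m + 1`); `graph s` the Steinhaus graph, `deg s i` the degree of the vertex `i`;
`SymmetricRow s`: `x_i = x_(n-1-i)` for all `1 ≤ i ≤ n - 2`.
-/

namespace Pool.Agent.Results.MP_7bce3d_co.EvenSymmetric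

open Pool.Agent.H61.Stein Pool.Agent.H56.EV

theorem result (m : ℕ) (s₁ s₂ : Fin m → ZMod 2) (hne : s₁ ≠ s₂)
    (h1 : SymmetricRow s₁) (h2 : SymmetricRow s₂)
    (he1 : ∀ i, Even (deg s₁ i)) (he2 : ∀ i, Even (deg s₂ i))
    (h4 : ∀ i, deg s₁ i ≡ deg s₂ i [MOD 4]) :
    (m % 6 = 0 ∧ ((∀ i, deg s₁ i = deg s₂ i) → m % 12 = 0) ∧
      ∀ i : Fin m, s₁ i + s₂ i = if ((i : ℕ) + 1) % 3 = 0 then 0 else 1) ∨
    (m % 12 = 3 ∧ ∀ i : Fin m, s₁ i + s₂ i =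
      if ((i : ℕ) + 1) % 3 = 0 ∧ (i : ℕ) + 1 < m then 1 else 0) :=
  even_symmetric s₁ s₂ hne h1 h2 he1 he2 h4

end Pool.Agent.Results.MP_7bce3d_co.EvenSymmetric
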