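import Pool.Agent.H61.Stein.Fam

/-!
# MP_7bce3d_co: collisions with odd degrees, and collisions with sum `1'`

Definitions (`Pool/Agent/H61/Stein/`): `entry x i j` are the entries above the diagonal of the
Steinhaus matrix with first row `x`; `ext s i` is the letter `x_i` of the string `s`
(`n = m + 1`); `graph s` the Steinhaus graph, `deg s i` the degree of the vertex `i`;
`ParityRegular`, `Collision`, `oneZero m = 1'`, `weight`, `Balanced`.
-/

namespace Pool.Agent.Results.MP_7bce3d_co.OddAndUnitSums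

open Pool.Agent.H61.Stein

theorem result :
    -- (1) the structure of every collision with odd degrees
    (∀ (m : ℕ) (s₁ s₂ : Fin m → ZMod 2), Collision s₁ s₂ → (∀ i, Odd (deg s₁ i)) →
      Even (m + 1) ∧
      (∀ i, 1 ≤ i → i < m → ext (s₁ + s₂) i = ext (s₁ + s₂) (m - i)) ∧
      ext (s₁ + s₂) m = 0 ∧
      4 ∣ weight (s₁ + s₂) ∧
      (∀ i, i < m → entry (ext (s₁ + s₂)) i m = ext (s₁ + s₂) i) ∧
      (∀ i, 1 ≤ i → i < m → ext (s₁ + s₂) i = 1 → ext s₁ i = ext s₁ (m - i))) ∧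
    -- (2) collisions with sum `1'`
    (∀ (m : ℕ) (s₁ s₂ : Fin m → ZMod 2), Collision s₁ s₂ → s₁ + s₂ = oneZero m →
      (m + 1) % 4 = 2 ∧ ∀ i, Odd (deg s₁ i)) ∧
    -- (3) their exact description
    (∀ (m : ℕ) (s₁ s₂ : Fin m → ZMod 2), (Collision s₁ s₂ ∧ s₁ + s₂ = oneZero m) ↔
      ∃ T : Fin m → ZMod 2, Balanced T ∧ s₁ = 1 + T ∧ s₂ = 1 + T + oneZero m) ∧
    -- (4) there are such collisions for infinitely many `n`
    (∀ q : ℕ, 1 ≤ q → ∃ s₁ s₂ : Fin (24 * q + 1) → ZMod 2,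
      Collision s₁ s₂ ∧ s₁ + s₂ = oneZero (24 * q + 1)) := by
  refine ⟨?_, ?_, fun m s₁ s₂ => unit_collision_iff s₁ s₂, ?_⟩
  · intro m s₁ s₂ hc ho
    obtain ⟨h1, h2⟩ := odd_collision s₁ s₂ hc.deg_eq ho
    exact ⟨h1.add_one, h2⟩
  · intro m s₁ s₂ hc hs
    have hs2 : s₂ = s₁ + oneZero m := by
      rw [← hs, ← add_assoc, z2fun, zero_add]
    subst hs2
    obtain ⟨h1, h2⟩ := unit_collision s₁ hc
    exact ⟨h2, h1⟩
  · intro q hq
    exact ⟨_, _, (unit_collision_iff _ _).2 ⟨perString q, perString_balanced q hq, rfl, rfl⟩⟩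

end Pool.Agent.Results.MP_7bce3d_co.OddAndUnitSums
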