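import Pool.Agent.H61.Stein.Fin

/-!
# MP_7bce3d_co: the collisions with odd and symmetric degrees

Definitions (`Pool/Agent/H61/Stein/`): `entry x i j` are the entries above the diagonal of the
Steinhaus matrix with first row `x`; `ext s i` is the letter `x_i` of the string `s`
(`n = m + 1`); `graph s` the Steinhaus graph, `deg s i` the degree of the vertex `i`;
`ParityRegular`, `Collision`, `oneZero m = 1'`; `SymmetricDegrees s`: `d_i = d_(n-1-i)` for all
`0 < i < n - 1`.
-/

namespace Pool.Agent.Results.MP_7bce3d_co.SymmetricDegrees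

open Pool.Agent.H61.Stein

theorem result (m : ℕ) (s₁ s₂ : Fin m → ZMod 2) (hc : Collision s₁ s₂) :
    ((∀ i, Odd (deg s₁ i)) ∧ SymmetricDegrees s₁) ↔
      ((m + 1) % 4 = 2 ∧ s₁ + s₂ = oneZero m) :=
  symmetric_iff s₁ s₂ hc

end Pool.Agent.Results.MP_7bce3d_co.SymmetricDegrees
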